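import Mathlib

/-!
# Optimal-colouring reconfiguration
-/

namespace Pool.Agent.R550.OC

variable {V : Type}

/-- `f` is a `k`-colouring of `G`. (The colours are `0, …, k - 1`.) -/
def IsCol (G : SimpleGraph V) (k : ℕ) (f : V → ℕ) : Prop :=
  (∀ v, f v < k) ∧ ∀ u v, G.Adj u v → f u ≠ f v

/-- `g` is a `k`-colouring of `G` which arises from `f` by recolouring a single vertex. -/
def Step (G : SimpleGraph V) (k : ℕ) (f g : V → ℕ) : Prop :=
  IsCol G k g ∧ ∃ w, g w ≠ f w ∧ ∀ v, v ≠ w → g v = f v

/-- `f` is `k`-reachable from `f₀`: there is a sequence `f₀, f₁, …, f` of `k`-colourings of `G` in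
which each arises from the previous one by recolouring a single vertex. -/
def Reach (G : SimpleGraph V) (k : ℕ) (f₀ f : V → ℕ) : Prop :=
  IsCol G k f₀ ∧ Relation.ReflTransGen (Step G k) f₀ f

/-- `χ(G, k, f₀)`, the least number of colours used by a colouring which is `k`-reachable from `f₀`
(`⊤` if there is none, that is, if `f₀` is not a `k`-colouring). -/
noncomputable def chi (G : SimpleGraph V) (k : ℕ) (f₀ : V → ℕ) : ℕ∞ :=
  ⨅ f ∈ {f | Reach G k f₀ f}, ((Set.range f).ncard : ℕ∞)

/-- `G` is perfect: every induced subgraph has the same chromatic number and clique number. -/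
def Perfect (G : SimpleGraph V) : Prop :=
  ∀ S : Set V, (G.induce S).chromaticNumber = (G.induce S).cliqueNum

/-- Bipartite graphs are perfect. -/
theorem perfect_of_colorable [Finite V] {G : SimpleGraph V} (h : G.Colorable 2) : Perfect G := by
  classical
  intro S
  refine le_antisymm ?_ SimpleGraph.cliqueNum_le_chromaticNumber
  have hS : (G.induce S).Colorable 2 := by
    obtain ⟨c⟩ := h
    exact ⟨c.comp (SimpleGraph.Embedding.induce S).toHom⟩
  by_cases h1 : ∃ u v, (G.induce S).Adj u v
  · obtain ⟨u, v, huv⟩ := h1
    have h2 : (G.induce S).IsClique (({u, v} : Finset S) : Set S) := by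
      rw [Finset.coe_pair]
      exact (SimpleGraph.isClique_pair).2 fun _ => huv
    have h3 : 2 ≤ (G.induce S).cliqueNum := by
      have := h2.card_le_cliqueNum
      rwa [Finset.card_pair huv.ne] at this
    exact le_trans (SimpleGraph.chromaticNumber_le_iff_colorable.2 hS) (by exact_mod_cast h3)
  · push Not at h1
    by_cases h2 : Nonempty S
    · obtain ⟨u⟩ := h2
      have h3 : 1 ≤ (G.induce S).cliqueNum := by
        have h4 : (G.induce S).IsClique (({u} : Finset S) : Set S) := by
          rw [Finset.coe_singleton]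
          exact SimpleGraph.isClique_singleton u
        exact h4.card_le_cliqueNum
      have h5 : (G.induce S).Colorable 1 :=
        ⟨SimpleGraph.Coloring.mk (fun _ => 0) fun {a b} hab => absurd hab (h1 a b)⟩
      exact le_trans (SimpleGraph.chromaticNumber_le_iff_colorable.2 h5) (by exact_mod_cast h3)
    · have h5 : (G.induce S).Colorable 0 :=
        ⟨SimpleGraph.Coloring.mk (fun v => absurd ⟨v⟩ h2) fun {a b} hab => absurd ⟨a⟩ h2⟩
      exact le_trans (SimpleGraph.chromaticNumber_le_iff_colorable.2 h5) (by simp)

end Pool.Agent.R550.OC
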