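import Pool.Agent.R550.OC.Main
import Pool.Agent.R550.LC.Final

/-!
# The reduction from 3-satisfiability
-/

namespace Pool.Agent.R550.OC

open Pool.Agent.NPC Pool.Agent.R550.GB Pool.Agent.R550.PS Pool.Agent.R550.LC

/-- The constraints: complementary occurrences are not both true, and no clause has only false
occurrences. (The colour `3 + 2 a` means that the occurrence `a` is false, `4 + 2 a` that it is
true.) -/
def LF (φ : Fml) (e : ℕ) : List ℕ :=
  if e < 3 * φ.length * (3 * φ.length) then
    (if conf φ (e / (3 * φ.length)) (e % (3 * φ.length)) = true then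
      [4 + 2 * (e / (3 * φ.length)), 4 + 2 * (e % (3 * φ.length))] else [3, 4])
  else [3 + 2 * (3 * (e - 3 * φ.length * (3 * φ.length))),
    3 + 2 * (3 * (e - 3 * φ.length * (3 * φ.length)) + 1),
    3 + 2 * (3 * (e - 3 * φ.length * (3 * φ.length)) + 2)]

/-- The number of variables. -/
def nN (φ : Fml) : ℕ := 3 * φ.length

/-- The number of constraints. -/
def nM (φ : Fml) : ℕ := 3 * φ.length * (3 * φ.length) + φ.length

/-- The list of vertices. -/
def vs (φ : Fml) : List (ℕ × ℕ) := blocks 6 (OC.cnt (nN φ) (nM φ))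

/-- The reduction. -/
def redF (φ : Fml) : List (List ℕ) × ℕ × List ℕ :=
  (mkL (vs φ) (OC.T (LF φ)), 3 + 2 * nN φ, (vs φ).map f0)

/-- The colouring given by a list of colours. -/
def toCol (c : List ℕ) {n : ℕ} (v : Fin n) : ℕ := c.getD v 0

theorem exists_Lab (φ : Fml) : ∃ X : Lab (graph (redF φ).1) (nN φ) (nM φ) (LF φ),
    (fun v => toCol (redF φ).2.2 v) = fun v => f0 (X.lab v) := by
  have hlen : (mkL (vs φ) (OC.T (LF φ))).length = (vs φ).length := mkL_length _ _
  refine ⟨⟨fun v => (vs φ)[(v : ℕ)]'(by rw [← hlen]; exact v.2), ?_, ?_, ?_, ?_⟩, ?_⟩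
  · intro u v h
    exact Fin.ext ((List.Nodup.getElem_inj_iff (blocks_nodup _ _)).1 h)
  · intro v
    exact mem_blocks.1 (List.getElem_mem _)
  · intro t i ht hi
    obtain ⟨j, hj, hj'⟩ := List.getElem_of_mem (mem_blocks.2 ⟨ht, hi⟩ : (t, i) ∈ vs φ)
    exact ⟨⟨j, by rw [redF, hlen]; exact hj⟩, hj'⟩
  · intro u v
    exact mkL_adj _ _ u v
  · funext v
    unfold toCol redF
    dsimp only
    rw [List.getD_eq_getElem?_getD, List.getElem?_map, List.getElem?_eq_getElem]
    rfl

theorem pair_index {φ : Fml} {a b : ℕ} (ha : a < 3 * φ.length) (hb : b < 3 * φ.length) :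
    a * (3 * φ.length) + b < 3 * φ.length * (3 * φ.length) ∧
      (a * (3 * φ.length) + b) / (3 * φ.length) = a ∧
      (a * (3 * φ.length) + b) % (3 * φ.length) = b := by
  refine ⟨?_, ?_, ?_⟩
  · have := Nat.mul_le_mul_right (3 * φ.length) (show a + 1 ≤ 3 * φ.length from ha)
    rw [Nat.add_mul, one_mul] at this
    omega
  · rw [mul_comm, Nat.mul_add_div (by omega), Nat.div_eq_of_lt hb, Nat.add_zero]
  · rw [mul_comm, Nat.mul_add_mod, Nat.mod_eq_of_lt hb]

theorem index_pair {φ : Fml} {e : ℕ} (h1 : e < 3 * φ.length * (3 * φ.length)) :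
    e / (3 * φ.length) < 3 * φ.length ∧ e % (3 * φ.length) < 3 * φ.length := by
  have h6 : e / (3 * φ.length) < 3 * φ.length := Nat.div_lt_of_lt_mul h1
  have h7 : 0 < 3 * φ.length := by
    rcases Nat.eq_zero_or_pos φ.length with h | h
    · rw [h] at h1; simp at h1
    · omega
  exact ⟨h6, Nat.mod_lt e h7⟩

theorem LF_bound (φ : Fml) : ∀ e < nM φ, ∀ l ∈ LF φ e, 3 ≤ l ∧ l < 3 + 2 * nN φ := by
  intro e he l hl
  unfold nM at he
  unfold nN
  unfold LF at hl
  split_ifs at hl with h1 h2
  · obtain ⟨h3, h4⟩ := index_pair h1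
    simp only [List.mem_cons, List.not_mem_nil, or_false] at hl
    omega
  · obtain ⟨h3, h4⟩ := index_pair h1
    simp only [List.mem_cons, List.not_mem_nil, or_false] at hl
    omega
  · simp only [List.mem_cons, List.not_mem_nil, or_false] at hl
    omega

theorem sat_iff (φ : Fml) : SAT3 φ ↔ Sat (nN φ) (nM φ) (LF φ) := by
  classical
  constructor
  · rintro ⟨τ, hτ⟩
    refine ⟨fun a => if τ (litA φ a).2 = (litA φ a).1 then 4 + 2 * a else 3 + 2 * a,
      fun a _ => ?_, fun e he => ?_⟩
    · dsimp only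
      split_ifs
      · exact Or.inr rfl
      · exact Or.inl rfl
    · unfold nM at he
      by_cases h1 : e < 3 * φ.length * (3 * φ.length)
      · by_cases h2 : conf φ (e / (3 * φ.length)) (e % (3 * φ.length)) = true
        · unfold LF
          rw [if_pos h1, if_pos h2]
          unfold conf at h2
          simp only [Bool.and_eq_true, decide_eq_true_eq, bne_iff_ne, ne_eq] at h2
          obtain ⟨h3, h4⟩ := h2
          by_cases h5 : τ (litA φ (e / (3 * φ.length))).2 = (litA φ (e / (3 * φ.length))).1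
          · refine ⟨4 + 2 * (e % (3 * φ.length)), by simp, ?_⟩
            have e1 : (4 + 2 * (e % (3 * φ.length)) - 3) / 2 = e % (3 * φ.length) := by omega
            dsimp only
            rw [e1, if_neg]
            · omega
            · rw [← h3, h5]
              exact h4
          · refine ⟨4 + 2 * (e / (3 * φ.length)), by simp, ?_⟩
            have e1 : (4 + 2 * (e / (3 * φ.length)) - 3) / 2 = e / (3 * φ.length) := by omega
            dsimp only
            rw [e1, if_neg h5]
            omega
        · unfold LF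
          rw [if_pos h1, if_neg h2]
          by_cases h5 : τ (litA φ 0).2 = (litA φ 0).1
          · refine ⟨3, by simp, ?_⟩
            simp [h5]
          · refine ⟨4, by simp, ?_⟩
            simp [h5]
      · obtain ⟨j, hj, rfl⟩ : ∃ j < φ.length, e = 3 * φ.length * (3 * φ.length) + j :=
          ⟨e - 3 * φ.length * (3 * φ.length), by omega, by omega⟩
        unfold LF
        rw [if_neg h1, Nat.add_sub_cancel_left]
        rcases hτ _ (List.getElem_mem hj) with h | h | h
        · refine ⟨3 + 2 * (3 * j), by simp, ?_⟩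
          have e1 : (3 + 2 * (3 * j) - 3) / 2 = 3 * j := by omega
          dsimp only
          rw [e1, if_pos]
          · omega
          · rw [litA0 hj]; exact h
        · refine ⟨3 + 2 * (3 * j + 1), by simp, ?_⟩
          have e1 : (3 + 2 * (3 * j + 1) - 3) / 2 = 3 * j + 1 := by omega
          dsimp only
          rw [e1, if_pos]
          · omega
          · rw [litA1 hj]; exact h
        · refine ⟨3 + 2 * (3 * j + 2), by simp, ?_⟩
          have e1 : (3 + 2 * (3 * j + 2) - 3) / 2 = 3 * j + 2 := by omega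
          dsimp only
          rw [e1, if_pos]
          · omega
          · rw [litA2 hj]; exact h
  · rintro ⟨s, hs, hsat⟩
    refine sat_of_occ (o := fun a => s a = 4 + 2 * a) ?_ ?_
    · rintro a b ha hb hc ⟨h1, h2⟩
      obtain ⟨h3, h4, h5⟩ := pair_index ha hb
      obtain ⟨l, hl, hl'⟩ := hsat (a * (3 * φ.length) + b) (by unfold nM; omega)
      unfold LF at hl
      rw [if_pos h3, h4, h5, if_pos hc] at hl
      simp only [List.mem_cons, List.not_mem_nil, or_false] at hl
      rcases hl with rfl | rfl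
      · apply hl'
        rw [show (4 + 2 * a - 3) / 2 = a by omega]
        exact h1
      · apply hl'
        rw [show (4 + 2 * b - 3) / 2 = b by omega]
        exact h2
    · intro j hj
      obtain ⟨l, hl, hl'⟩ := hsat (3 * φ.length * (3 * φ.length) + j) (by unfold nM; omega)
      unfold LF at hl
      rw [if_neg (by omega), Nat.add_sub_cancel_left] at hl
      simp only [List.mem_cons, List.not_mem_nil, or_false] at hl
      rcases hl with rfl | rfl | rfl
      · left
        rw [show (3 + 2 * (3 * j) - 3) / 2 = 3 * j by omega] at hl'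
        have := hs (3 * j) (by unfold nN; omega)
        tauto
      · right; left
        rw [show (3 + 2 * (3 * j + 1) - 3) / 2 = 3 * j + 1 by omega] at hl'
        have := hs (3 * j + 1) (by unfold nN; omega)
        tauto
      · right; right
        rw [show (3 + 2 * (3 * j + 2) - 3) / 2 = 3 * j + 2 by omega] at hl'
        have := hs (3 * j + 2) (by unfold nN; omega)
        tauto

/-- The instances of the reduction. -/
structure Inst (x : List (List ℕ) × ℕ × List ℕ) : Prop where
  colorable : (graph x.1).Colorable 2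
  edge : ∃ u v, (graph x.1).Adj u v
  col : IsCol (graph x.1) x.2.1 (toCol x.2.2)
  three : 3 ≤ x.2.1
  gap : chi (graph x.1) x.2.1 (toCol x.2.2) = 2 ∨ chi (graph x.1) x.2.1 (toCol x.2.2) = x.2.1

theorem inst (φ : Fml) : Inst (redF φ) := by
  obtain ⟨X, hX⟩ := exists_Lab φ
  refine ⟨X.colorable, ?_, ?_, ?_, ?_⟩
  · obtain ⟨u, hu⟩ := X.surj 0 0 (by omega) (by simp [OC.cnt])
    obtain ⟨w, hw⟩ := X.surj 1 0 (by omega) (by simp [OC.cnt])
    refine ⟨w, u, ?_⟩
    rw [X.adj, hu, hw]
    refine ⟨?_, Or.inl (T0 (Or.inl ⟨rfl, by omega⟩))⟩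
    intro h
    rw [h, hu] at hw
    exact absurd (Prod.mk.inj hw).1 (by omega)
  · have := X.isCol_f0
    rw [← hX] at this
    exact this
  · show 3 ≤ 3 + 2 * nN φ
    omega
  · by_cases h : Sat (nN φ) (nM φ) (LF φ)
    · left
      have := X.chi_sat (LF_bound φ) h
      rw [← hX] at this
      exact this
    · right
      have := X.chi_unsat (LF_bound φ) h
      rw [← hX] at this
      exact this

theorem correct (φ : Fml) : SAT3 φ ↔
    chi (graph (redF φ).1) (redF φ).2.1 (toCol (redF φ).2.2) = 2 := by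
  obtain ⟨X, hX⟩ := exists_Lab φ
  rw [sat_iff]
  constructor
  · intro h
    have := X.chi_sat (LF_bound φ) h
    rw [← hX] at this
    exact this
  · intro h
    by_contra hS
    have := X.chi_unsat (LF_bound φ) hS
    rw [← hX] at this
    have h1 : chi (graph (redF φ).1) (redF φ).2.1 (toCol (redF φ).2.2) =
      (3 + 2 * nN φ : ℕ) := this
    rw [h] at h1
    have h2 : (2 : ℕ) = 3 + 2 * nN φ := by exact_mod_cast h1
    omega

section

variable {α : Type} [TEnc α]

theorem poly_LF {φ : α → Fml} {e : α → ℕ} (hφ : NPC.Poly φ) (he : NPC.Poly e) :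
    NPC.Poly (fun x => LF (φ x) (e x)) := by
  unfold LF
  have h1 : NPC.Poly (fun x => conf (φ x) (e x / (3 * (φ x).length))
      (e x % (3 * (φ x).length))) := poly_conf hφ (by fun_prop) (by fun_prop)
  fun_prop

theorem poly_T {φ : α → Fml} {a b : α → ℕ × ℕ} (hφ : NPC.Poly φ) (ha : NPC.Poly a)
    (hb : NPC.Poly b) : NPC.Poly (fun x => OC.T (LF (φ x)) (a x) (b x)) := by
  unfold OC.T
  have h1 : NPC.Poly (fun x => LF (φ x) (b x).2) := poly_LF hφ (NPC.Poly.snd hb)
  fun_prop

end

theorem upoly_nN : UPoly (fun φ : Fml => nN φ) :=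
  UPoly.mul (UPoly.const 3) (UPoly.length NPC.Poly.id)

theorem upoly_nM : UPoly (fun φ : Fml => nM φ) :=
  UPoly.add (UPoly.mul upoly_nN upoly_nN) (UPoly.length NPC.Poly.id)

theorem poly_vs : NPC.Poly vs := by
  refine poly_blocks 6 fun t => ?_
  unfold OC.cnt
  split_ifs
  · exact UPoly.add (UPoly.const 3) (UPoly.mul (UPoly.const 2) upoly_nN)
  · exact UPoly.add (UPoly.const 2) (UPoly.mul (UPoly.const 2) upoly_nN)
  · exact UPoly.const 2
  · exact upoly_nN
  · exact upoly_nM
  · exact upoly_nM
  · exact UPoly.const 0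

theorem poly_redF : NPC.Poly redF := by
  unfold redF
  refine NPC.Poly.pair ?_ (NPC.Poly.pair ?_ ?_)
  · exact poly_mkL (t := fun φ => OC.T (LF φ)) poly_vs
      (poly_T (NPC.Poly.fst (NPC.Poly.fst NPC.Poly.id))
      (NPC.Poly.snd (NPC.Poly.fst NPC.Poly.id)) (NPC.Poly.snd NPC.Poly.id))
  · exact (UPoly.add (UPoly.const 3) (UPoly.mul (UPoly.const 2) upoly_nN)).toPoly
  · refine NPC.Poly.map (F := fun (_ : Fml) x => f0 x) poly_vs ?_
    unfold f0 glue
    fun_prop

theorem hard : HardPr Inst
    (fun x => chi (graph x.1) x.2.1 (toCol x.2.2) = 2) :=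
  hardPr_SAT3.trans poly_redF (fun φ _ => inst φ) (fun φ _ => correct φ)

end Pool.Agent.R550.OC
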