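import Pool.Agent.R550.OC.Defs

/-!
# Unlocking a frozen colouring

The vertices are `(0, c)`, `(1, c)`, `(2, β)`, `(3, i)`, `(4, e)`, `(5, e)`: the vertices `(0, c)` and
`(1, c - 1)` have the colour `c` (where `c < 3 + 2 n`), the two keys `(2, 0)`, `(2, 1)` have the
colour `0`, the `i`-th variable `(3, i)` has the colour `3 + 2 i` or `4 + 2 i` and the constraint
vertices `(4, e)`, `(5, e)` have the colours `1`, `2` or a colour in `L e`.
-/

namespace Pool.Agent.R550.OC

/-- The numbers of vertices. -/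
def cnt (n M : ℕ) (t : ℕ) : ℕ :=
  if t = 0 then 3 + 2 * n else if t = 1 then 2 + 2 * n else if t = 2 then 2
  else if t = 3 then n else if t = 4 then M else if t = 5 then M else 0

/-- The edges (between `x` with `x.1 ∈ {1, 2, 3}` and `y` with `y.1 ∈ {0, 4, 5}`). -/
def T (L : ℕ → List ℕ) (x y : ℕ × ℕ) : Bool :=
  if y.1 = 0 then
    (if x.1 = 1 then decide (y.2 ≠ x.2 + 1)
    else if x.1 = 2 then decide (y.2 ≠ 0 ∧ y.2 ≠ 1 + x.2)
    else if x.1 = 3 then decide (y.2 ≠ 3 + 2 * x.2 ∧ y.2 ≠ 4 + 2 * x.2)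
    else false)
  else if y.1 = 4 ∨ y.1 = 5 then
    (if x.1 = 1 then decide (x.2 + 1 + 3 ≠ y.1) && !decide (x.2 + 1 ∈ L y.2)
    else if x.1 = 2 then decide (x.2 + 4 = y.1)
    else if x.1 = 3 then decide (3 + 2 * x.2 ∈ L y.2) || decide (4 + 2 * x.2 ∈ L y.2)
    else false)
  else false

/-- Some choice `s` of one of the two colours `3 + 2 i`, `4 + 2 i` for every variable `i` satisfies
all constraints: the constraint `e` forbids that all colours in `L e` are chosen. -/
def Sat (n M : ℕ) (L : ℕ → List ℕ) : Prop :=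
  ∃ s : ℕ → ℕ, (∀ i < n, s i = 3 + 2 * i ∨ s i = 4 + 2 * i) ∧
    ∀ e < M, ∃ l ∈ L e, s ((l - 3) / 2) ≠ l

/-- A labelling of the vertices. -/
structure Lab {V : Type} (G : SimpleGraph V) (n M : ℕ) (L : ℕ → List ℕ) where
  lab : V → ℕ × ℕ
  inj : Function.Injective lab
  lt : ∀ v, (lab v).1 < 6 ∧ (lab v).2 < cnt n M (lab v).1
  surj : ∀ t i, t < 6 → i < cnt n M t → ∃ v, lab v = (t, i)
  adj : ∀ u v, G.Adj u v ↔ u ≠ v ∧ (T L (lab u) (lab v) = true ∨ T L (lab v) (lab u) = true)

/-- A colouring given by its parts. -/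
def glue (b a z s : ℕ → ℕ) (o : ℕ → ℕ → ℕ) (x : ℕ × ℕ) : ℕ :=
  if x.1 = 0 then b x.2 else if x.1 = 1 then a x.2 else if x.1 = 2 then z x.2
  else if x.1 = 3 then s x.2 else o x.1 x.2

/-- The initial colouring. -/
def f0 : ℕ × ℕ → ℕ :=
  glue id (fun i => i + 1) (fun _ => 0) (fun i => 3 + 2 * i) (fun t _ => t - 3)

/-- The side of a vertex. -/
def side (x : ℕ × ℕ) : Prop := x.1 = 1 ∨ x.1 = 2 ∨ x.1 = 3

theorem T_side {L : ℕ → List ℕ} {x y : ℕ × ℕ} (h : T L x y = true) : side x ∧ ¬ side y := by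
  unfold T at h
  unfold side
  split_ifs at h with h1 h2 h3 h4 h5 h6 h7 h8 <;>
    first | (exact absurd h (by decide)) | exact ⟨by omega, by omega⟩

theorem glue_side {b b' a z s : ℕ → ℕ} {o o' : ℕ → ℕ → ℕ} (x : ℕ × ℕ) (hx : side x) :
    glue b a z s o x = glue b' a z s o' x := by
  unfold side at hx
  unfold glue
  rcases hx with h | h | h <;> simp [h]

theorem glue_nside {b a z s a' z' s' : ℕ → ℕ} {o : ℕ → ℕ → ℕ} (x : ℕ × ℕ) (hx : ¬ side x) :
    glue b a z s o x = glue b a' z' s' o x := by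
  unfold side at hx
  push Not at hx
  unfold glue
  simp [hx.1, hx.2.1, hx.2.2]

/-! ### Batches of recolourings -/

section batch

variable {V : Type} {G : SimpleGraph V} {k : ℕ}

theorem Reach.isCol {f g : V → ℕ} (h : Reach G k f g) : IsCol G k g := by
  obtain ⟨h1, h2⟩ := h
  induction h2 with
  | refl => exact h1
  | tail _ h3 => exact h3.1

/-- If two colourings differ only on an independent set, then each is reachable from the other. -/
theorem batch [Finite V] {f₀ f g : V → ℕ} (h0 : Reach G k f₀ f) (hg : IsCol G k g)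
    (hd : ∀ u v, G.Adj u v → f u = g u ∨ f v = g v) : Reach G k f₀ g := by
  classical
  have := Fintype.ofFinite V
  have hf := h0.isCol
  have hcol : ∀ S : Finset V, IsCol G k (fun v => if v ∈ S then g v else f v) := by
    intro S
    refine ⟨fun v => ?_, fun u v huv => ?_⟩
    · dsimp only
      split_ifs
      · exact hg.1 v
      · exact hf.1 v
    · dsimp only
      have h1 := hf.2 u v huv
      have h2 := hg.2 u v huv
      rcases hd u v huv with h3 | h3
      · split_ifs <;> simp_all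
      · split_ifs <;> simp_all
  have key : ∀ S : Finset V, Reach G k f₀ (fun v => if v ∈ S then g v else f v) := by
    intro S
    induction S using Finset.induction_on with
    | empty => simpa using h0
    | insert a S ha ih =>
      by_cases h1 : g a = f a
      · have h2 : (fun v => if v ∈ insert a S then g v else f v) =
            fun v => if v ∈ S then g v else f v := by
          funext v
          by_cases hv : v = a
          · subst hv
            simp [ha, h1]
          · simp [hv]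
        rw [h2]
        exact ih
      · refine ⟨ih.1, ih.2.tail ⟨hcol _, a, ?_, fun v hv => ?_⟩⟩
        · simpa [ha] using h1
        · simp [hv]
  have h1 := key Finset.univ
  simpa using h1

end batch

section main

variable {V : Type} {G : SimpleGraph V} {n M : ℕ} {L : ℕ → List ℕ} (X : Lab G n M L)

include X

theorem Lab.colorable : G.Colorable 2 := by
  classical
  refine ⟨SimpleGraph.Coloring.mk (fun v => if side (X.lab v) then (0 : Fin 2) else 1) ?_⟩
  intro u v huv
  rw [X.adj] at huv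
  rcases huv.2 with h | h
  · obtain ⟨h1, h2⟩ := T_side h
    simp [h1, h2]
  · obtain ⟨h1, h2⟩ := T_side h
    simp [h1, h2]

/-- A function of the labels is a colouring. -/
theorem Lab.isCol {k : ℕ} {g : ℕ × ℕ → ℕ}
    (h1 : ∀ t i, t < 6 → i < cnt n M t → g (t, i) < k)
    (h2 : ∀ t i t' i', t < 6 → i < cnt n M t → t' < 6 → i' < cnt n M t' →
      T L (t, i) (t', i') = true → g (t, i) ≠ g (t', i')) : IsCol G k (fun v => g (X.lab v)) := by
  refine ⟨fun v => h1 _ _ (X.lt v).1 (X.lt v).2, fun u v huv => ?_⟩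
  rw [X.adj] at huv
  rcases huv.2 with h | h
  · exact h2 _ _ _ _ (X.lt u).1 (X.lt u).2 (X.lt v).1 (X.lt v).2 h
  · exact (h2 _ _ _ _ (X.lt v).1 (X.lt v).2 (X.lt u).1 (X.lt u).2 h).symm

theorem Lab.isCol_glue {k : ℕ} {b a z s : ℕ → ℕ} {o : ℕ → ℕ → ℕ}
    (hb : ∀ c < 3 + 2 * n, b c < k) (ha : ∀ i < 2 + 2 * n, a i < k) (hz : ∀ i < 2, z i < k)
    (hs : ∀ i < n, s i < k) (ho : ∀ t e, (t = 4 ∨ t = 5) → e < M → o t e < k)
    (h10 : ∀ i < 2 + 2 * n, ∀ c < 3 + 2 * n, c ≠ i + 1 → a i ≠ b c)
    (h20 : ∀ i < 2, ∀ c < 3 + 2 * n, c ≠ 0 → c ≠ 1 + i → z i ≠ b c)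
    (h30 : ∀ i < n, ∀ c < 3 + 2 * n, c ≠ 3 + 2 * i → c ≠ 4 + 2 * i → s i ≠ b c)
    (h1o : ∀ i < 2 + 2 * n, ∀ t e, (t = 4 ∨ t = 5) → e < M → i + 1 + 3 ≠ t → i + 1 ∉ L e →
      a i ≠ o t e)
    (h2o : ∀ i < 2, ∀ e < M, z i ≠ o (i + 4) e)
    (h3o : ∀ i < n, ∀ t e, (t = 4 ∨ t = 5) → e < M → (3 + 2 * i ∈ L e ∨ 4 + 2 * i ∈ L e) →
      s i ≠ o t e) :
    IsCol G k (fun v => glue b a z s o (X.lab v)) := by
  refine X.isCol ?_ ?_
  · intro t i ht hi
    unfold cnt at hi
    unfold glue
    interval_cases t <;> simp only [Nat.reduceEqDiff, if_true, if_false, OfNat.ofNat_ne_zero,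
      OfNat.ofNat_ne_one, one_ne_zero, OfNat.zero_ne_ofNat] at hi ⊢
    · exact hb i hi
    · exact ha i hi
    · exact hz i hi
    · exact hs i hi
    · exact ho 4 i (Or.inl rfl) hi
    · exact ho 5 i (Or.inr rfl) hi
  · intro t i t' i' ht hi ht' hi' h
    unfold T at h
    unfold cnt at hi hi'
    unfold glue
    dsimp only at h ⊢
    split_ifs at h with g1 g2 g3 g4 g5 g6 g7 g8
    · subst g1 g2
      simp only [if_true, one_ne_zero, if_false, decide_eq_true_eq] at h hi hi' ⊢
      exact h10 i hi i' hi' h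
    · subst g1 g3
      simp only [if_true, if_false, decide_eq_true_eq, OfNat.ofNat_ne_zero,
        OfNat.ofNat_ne_one] at h hi hi' ⊢
      exact h20 i hi i' hi' h.1 h.2
    · subst g1 g4
      simp only [if_true, if_false, decide_eq_true_eq, OfNat.ofNat_ne_zero,
        OfNat.ofNat_ne_one, Nat.reduceEqDiff] at h hi hi' ⊢
      exact h30 i hi i' hi' h.1 h.2
    · subst g6
      simp only [Bool.and_eq_true, decide_eq_true_eq, Bool.not_eq_true', decide_eq_false_iff_not,
        if_true, if_false, one_ne_zero] at h hi ⊢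
      have hM : i' < M := by
        rcases g5 with rfl | rfl <;> simpa using hi'
      have e1 : ¬ t' = 1 := by omega
      have e2 : ¬ t' = 2 := by omega
      have e3 : ¬ t' = 3 := by omega
      simp only [g1, e1, e2, e3, if_false]
      exact h1o i hi t' i' g5 hM h.1 h.2
    · subst g7
      simp only [decide_eq_true_eq, if_true, if_false, OfNat.ofNat_ne_zero,
        OfNat.ofNat_ne_one] at h hi ⊢
      have hM : i' < M := by
        rcases g5 with rfl | rfl <;> simpa using hi'
      have e1 : ¬ t' = 1 := by omega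
      have e2 : ¬ t' = 2 := by omega
      have e3 : ¬ t' = 3 := by omega
      simp only [g1, e1, e2, e3, if_false]
      rw [← h]
      exact h2o i hi i' hM
    · subst g8
      simp only [decide_eq_true_eq, if_true, if_false, OfNat.ofNat_ne_zero, Bool.or_eq_true,
        OfNat.ofNat_ne_one, Nat.reduceEqDiff] at h hi ⊢
      have hM : i' < M := by
        rcases g5 with rfl | rfl <;> simpa using hi'
      have e1 : ¬ t' = 1 := by omega
      have e2 : ¬ t' = 2 := by omega
      have e3 : ¬ t' = 3 := by omega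
      simp only [g1, e1, e2, e3, if_false]
      exact h3o i hi t' i' g5 hM h

/-- A batch of recolourings on one side. -/
theorem Lab.batch [Finite V] {k : ℕ} {f : V → ℕ} {g g' : ℕ × ℕ → ℕ}
    (h0 : Reach G k f (fun v => g (X.lab v))) (hg : IsCol G k (fun v => g' (X.lab v)))
    (hd : (∀ x, side x → g x = g' x) ∨ (∀ x, ¬ side x → g x = g' x)) :
    Reach G k f (fun v => g' (X.lab v)) := by
  refine OC.batch h0 hg fun u v huv => ?_
  rw [X.adj] at huv
  rcases huv.2 with h | h
  · obtain ⟨h1, h2⟩ := T_side h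
    rcases hd with h3 | h3
    · exact Or.inl (h3 _ h1)
    · exact Or.inr (h3 _ h2)
  · obtain ⟨h1, h2⟩ := T_side h
    rcases hd with h3 | h3
    · exact Or.inr (h3 _ h1)
    · exact Or.inl (h3 _ h2)

theorem Lab.isCol_f0 : IsCol G (3 + 2 * n) (fun v => f0 (X.lab v)) := by
  unfold f0
  refine X.isCol_glue (fun c hc => hc) (fun i hi => by omega) (fun i _ => by omega)
    (fun i _ => by omega) (fun t e ht _ => by omega) (fun i _ c _ h => ?_) (fun i _ c _ h1 _ => ?_)
    (fun i _ c _ h1 _ => ?_) (fun i _ t e ht _ h1 _ => by omega) (fun i _ e _ => by omega)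
    (fun i _ t e ht _ _ => by omega)
  · exact fun h' => h h'.symm
  · exact fun h' => h1 h'.symm
  · exact fun h' => h1 h'.symm

/-- **Unlocking**: if the constraints are satisfiable then a 2-colouring is reachable. -/
theorem Lab.reach_two [Finite V] (hL : ∀ e < M, ∀ l ∈ L e, 3 ≤ l ∧ l < 3 + 2 * n)
    (h : Sat n M L) : ∃ f : V → ℕ, Reach G (3 + 2 * n) (fun v => f0 (X.lab v)) f ∧
      ∀ v, f v < 2 := by
  classical
  obtain ⟨s, hs, hsat⟩ := h
  have hch : ∀ e, ∃ l, e < M → l ∈ L e ∧ s ((l - 3) / 2) ≠ l := by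
    intro e
    by_cases he : e < M
    · obtain ⟨l, h1, h2⟩ := hsat e he
      exact ⟨l, fun _ => ⟨h1, h2⟩⟩
    · exact ⟨0, fun h' => absurd h' he⟩
  choose l hl using hch
  have hl3 : ∀ e < M, 3 ≤ l e ∧ l e < 3 + 2 * n := fun e he => hL e he _ (hl e he).1
  have hls : ∀ i < n, ∀ e < M, s i ≠ l e := by
    intro i hi e he h'
    have h1 := hs i hi
    have h2 : (l e - 3) / 2 = i := by omega
    exact (hl e he).2 (by rw [h2]; exact h')
  -- the variables
  have r0 : Reach G (3 + 2 * n) (fun v => f0 (X.lab v)) (fun v => f0 (X.lab v)) :=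
    ⟨X.isCol_f0, Relation.ReflTransGen.refl⟩
  have c1 : IsCol G (3 + 2 * n) (fun v => glue id (fun i => i + 1) (fun _ => 0) s
      (fun t _ => t - 3) (X.lab v)) := by
    refine X.isCol_glue (fun c hc => hc) (fun i hi => by omega) (fun i _ => by omega)
      (fun i hi => by have := hs i hi; omega) (fun t e ht _ => by omega) (fun i _ c _ h => ?_)
      (fun i _ c _ h1 _ => ?_) (fun i hi c _ h1 h2 => ?_) (fun i _ t e ht _ h1 _ => by omega)
      (fun i _ e _ => by omega) (fun i hi t e ht _ _ => by have := hs i hi; omega)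
    · exact fun h' => h h'.symm
    · exact fun h' => h1 h'.symm
    · have := hs i hi
      simp only [id_eq, ne_eq]
      omega
  have r1 := X.batch (g := f0) r0 c1 (Or.inr fun x hx => glue_nside x hx)
  -- the constraints
  have c2 : IsCol G (3 + 2 * n) (fun v => glue id (fun i => i + 1) (fun _ => 0) s
      (fun _ e => l e) (X.lab v)) := by
    refine X.isCol_glue (fun c hc => hc) (fun i hi => by omega) (fun i _ => by omega)
      (fun i hi => by have := hs i hi; omega) (fun t e ht he => (hl3 e he).2)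
      (fun i _ c _ h => ?_) (fun i _ c _ h1 _ => ?_) (fun i hi c _ h1 h2 => ?_)
      (fun i _ t e ht he h1 h2 h3 => h2 (h3 ▸ (hl e he).1))
      (fun i _ e he => by have := hl3 e he; omega) (fun i hi t e ht he _ => hls i hi e he)
    · exact fun h' => h h'.symm
    · exact fun h' => h1 h'.symm
    · have := hs i hi
      simp only [id_eq, ne_eq]
      omega
  have r2 := X.batch r1 c2 (Or.inl fun x hx => glue_side x hx)
  -- the keys
  have c3 : IsCol G (3 + 2 * n) (fun v => glue id (fun i => i + 1) (fun i => 1 + i) s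
      (fun _ e => l e) (X.lab v)) := by
    refine X.isCol_glue (fun c hc => hc) (fun i hi => by omega) (fun i _ => by omega)
      (fun i hi => by have := hs i hi; omega) (fun t e ht he => (hl3 e he).2)
      (fun i _ c _ h => ?_) (fun i _ c _ _ h1 => ?_) (fun i hi c _ h1 h2 => ?_)
      (fun i _ t e ht he h1 h2 h3 => h2 (h3 ▸ (hl e he).1))
      (fun i _ e he => by have := hl3 e he; omega) (fun i hi t e ht he _ => hls i hi e he)
    · exact fun h' => h h'.symm
    · exact fun h' => h1 h'.symm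
    · have := hs i hi
      simp only [id_eq, ne_eq]
      omega
  have r3 := X.batch r2 c3 (Or.inr fun x hx => glue_nside x hx)
  -- one side
  have c4 : IsCol G (3 + 2 * n) (fun v => glue (fun _ => 0) (fun i => i + 1) (fun i => 1 + i) s
      (fun _ _ => 0) (X.lab v)) := by
    refine X.isCol_glue (fun c hc => by omega) (fun i hi => by omega) (fun i _ => by omega)
      (fun i hi => by have := hs i hi; omega) (fun t e ht he => by omega)
      (fun i _ c _ h => by omega) (fun i _ c _ _ h1 => by omega)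
      (fun i hi c _ h1 h2 => by have := hs i hi; omega)
      (fun i _ t e ht he h1 h2 => by omega)
      (fun i _ e he => by omega) (fun i hi t e ht he _ => by have := hs i hi; omega)
  have r4 := X.batch r3 c4 (Or.inl fun x hx => glue_side x hx)
  -- the other side
  have c5 : IsCol G (3 + 2 * n) (fun v => glue (fun _ => 0) (fun _ => 1) (fun _ => 1) (fun _ => 1)
      (fun _ _ => 0) (X.lab v)) := by
    refine X.isCol_glue (fun c hc => by omega) (fun i hi => by omega) (fun i _ => by omega)
      (fun i hi => by omega) (fun t e ht he => by omega)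
      (fun i _ c _ h => by omega) (fun i _ c _ _ h1 => by omega)
      (fun i hi c _ h1 h2 => by omega)
      (fun i _ t e ht he h1 h2 => by omega)
      (fun i _ e he => by omega) (fun i hi t e ht he _ => by omega)
  refine ⟨_, X.batch r4 c5 (Or.inr fun x hx => glue_nside x hx), fun v => ?_⟩
  unfold glue
  dsimp only
  split_ifs <;> omega

/-- The invariant: the frozen part. -/
def Inv (L : ℕ → List ℕ) (x : ℕ × ℕ) (c : ℕ) : Prop :=
  (x.1 = 0 → c = x.2) ∧ (x.1 = 1 → c = x.2 + 1) ∧ (x.1 = 2 → c = 0) ∧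
    (x.1 = 3 → c = 3 + 2 * x.2 ∨ c = 4 + 2 * x.2) ∧
    (x.1 = 4 ∨ x.1 = 5 → c + 3 = x.1 ∨ c ∈ L x.2)

omit X in
theorem T0 {x : ℕ × ℕ} {c : ℕ} (h : (x.1 = 1 ∧ c ≠ x.2 + 1) ∨ (x.1 = 2 ∧ c ≠ 0 ∧ c ≠ 1 + x.2) ∨
    (x.1 = 3 ∧ c ≠ 3 + 2 * x.2 ∧ c ≠ 4 + 2 * x.2)) : T L x (0, c) = true := by
  unfold T
  rcases h with h | h | h <;> simp [h]

omit X in
theorem T4 {x : ℕ × ℕ} {t e : ℕ} (ht : t = 4 ∨ t = 5)
    (h : (x.1 = 1 ∧ x.2 + 1 + 3 ≠ t ∧ x.2 + 1 ∉ L e) ∨ (x.1 = 2 ∧ x.2 + 4 = t) ∨
      (x.1 = 3 ∧ (3 + 2 * x.2 ∈ L e ∨ 4 + 2 * x.2 ∈ L e))) : T L x (t, e) = true := by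
  unfold T
  have h0 : ¬ t = 0 := by omega
  simp only [h0, if_false, ht, if_true]
  rcases h with ⟨h, h1, h2⟩ | ⟨h, h1⟩ | ⟨h, h1⟩
  · simp [h, h1, h2]
  · simp [h, h1]
  · simp [h, h1]

/-- **Locking**: while the constraints are not satisfied, the frozen part does not change. -/
theorem Lab.inv_step (hL : ∀ e < M, ∀ l ∈ L e, 3 ≤ l ∧ l < 3 + 2 * n)
    {f f' : V → ℕ} (hf : IsCol G (3 + 2 * n) f) (hI : ∀ v, Inv L (X.lab v) (f v))
    (hst : Step G (3 + 2 * n) f f') : Sat n M L ∨ ∀ v, Inv L (X.lab v) (f' v) := by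
  obtain ⟨hc, w, hw, hv⟩ := hst
  -- a vertex adjacent to `w` whose colour is the new colour of `w`
  have block : ∀ t i, t < 6 → i < cnt n M t →
      (T L (X.lab w) (t, i) = true ∨ T L (t, i) (X.lab w) = true) →
      (∀ u, X.lab u = (t, i) → f u = f' w) → False := by
    intro t i ht hi hT hcol
    obtain ⟨u, hu⟩ := X.surj t i ht hi
    have hne : w ≠ u := by
      rintro rfl
      rw [hu] at hT
      rcases hT with h | h <;> exact absurd (T_side h).1 (T_side h).2
    have hadj : G.Adj w u := by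
      rw [X.adj, hu]
      exact ⟨hne, hT⟩
    have h1 := hc.2 w u hadj
    rw [hv u (Ne.symm hne)] at h1
    exact h1 (hcol u hu).symm
  have hk : f' w < 3 + 2 * n := hc.1 w
  -- blocking by `(0, c)`
  have block0 : (∀ x, x = X.lab w → (x.1 = 1 ∧ f' w ≠ x.2 + 1) ∨ (x.1 = 2 ∧ f' w ≠ 0 ∧ f' w ≠ 1 + x.2) ∨
      (x.1 = 3 ∧ f' w ≠ 3 + 2 * x.2 ∧ f' w ≠ 4 + 2 * x.2)) → False := by
    intro h
    refine block 0 (f' w) (by omega) (by simpa [cnt] using hk) (Or.inl (T0 (h _ rfl))) ?_
    intro u hu
    have h1 := (hI u).1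
    rw [hu] at h1
    exact h1 rfl
  obtain ⟨ht6, hicnt⟩ := X.lt w
  have hother : ∀ v, v ≠ w → Inv L (X.lab v) (f' v) := fun v hvw => by
    rw [hv v hvw]
    exact hI v
  have hred : Sat n M L ∨ Inv L (X.lab w) (f' w) → Sat n M L ∨ ∀ v, Inv L (X.lab v) (f' v) := by
    rintro (h | h)
    · exact Or.inl h
    · right
      intro v
      by_cases hvw : v = w
      · rw [hvw]; exact h
      · exact hother v hvw
  apply hred
  -- blocking by `(1, c - 1)`
  have block1 : f' w ≠ 0 → T L (1, f' w - 1) (X.lab w) = true → False := by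
    intro h0 hT
    refine block 1 (f' w - 1) (by omega) ?_ (Or.inr hT) ?_
    · show f' w - 1 < 2 + 2 * n
      omega
    · intro u hu
      have h1 := (hI u).2.1
      rw [hu] at h1
      have := h1 rfl
      dsimp only at this
      omega
  -- blocking by the keys
  have block2 : f' w = 0 → ∀ β < 2, T L (2, β) (X.lab w) = true → False := by
    intro h0 β hβ hT
    refine block 2 β (by omega) hβ (Or.inr hT) ?_
    intro u hu
    have h1 := (hI u).2.2.1
    rw [hu] at h1
    rw [h1 rfl, h0]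
  obtain ⟨t, i, hlab⟩ : ∃ t i, X.lab w = (t, i) := ⟨_, _, rfl⟩
  rw [hlab] at ht6 block1 block2 hicnt block0 ⊢
  dsimp only at ht6 hicnt
  unfold Inv
  dsimp only
  by_contra hcon
  rw [not_or] at hcon
  obtain ⟨hS, hcon⟩ := hcon
  interval_cases t
  · have h1 : f' w ≠ i := by
      intro h
      exact hcon (by simp [h])
    by_cases h0 : f' w = 0
    · refine block2 h0 (if i = 1 then 1 else 0) (by split_ifs <;> omega) (T0 (Or.inr (Or.inl
        ⟨rfl, by omega, ?_⟩)))
      dsimp only
      split_ifs <;> omega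
    · refine block1 h0 (T0 (Or.inl ⟨rfl, ?_⟩))
      dsimp only
      omega
  · have h1 : f' w ≠ i + 1 := by
      intro h
      exact hcon (by simp [h])
    exact block0 fun x hx => Or.inl (by rw [hx]; exact ⟨rfl, h1⟩)
  · have h1 : f' w ≠ 0 := by
      intro h
      exact hcon (by simp [h])
    by_cases h2 : f' w = 1 + i
    · -- the key has moved, so the constraints are satisfied
      refine hS ?_
      have hi2 : i < 2 := hicnt
      classical
      refine ⟨fun j => if h : j < n then f (X.surj 3 j (by omega) (by simpa [cnt] using h)).choose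
        else 0, fun j hj => ?_, fun e he => ?_⟩
      · dsimp only
        rw [dif_pos hj]
        have h3 := (X.surj 3 j (by omega) (by simpa [cnt] using hj)).choose_spec
        have h4 := (hI (X.surj 3 j (by omega) (by simpa [cnt] using hj)).choose).2.2.2.1
        rw [h3] at h4
        exact h4 rfl
      · have ht : 4 + i = 4 ∨ 4 + i = 5 := by omega
        obtain ⟨u, hu⟩ := X.surj (4 + i) e (by omega) (by
          rcases ht with h | h <;> rw [h] <;> simpa [cnt] using he)
        have hwu : w ≠ u := by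
          rintro rfl
          rw [hu] at hlab
          have := (Prod.mk.inj hlab).1
          omega
        have hadj : G.Adj w u := by
          rw [X.adj, hu, hlab]
          exact ⟨hwu, Or.inl (T4 ht (Or.inr (Or.inl ⟨rfl, by dsimp only; omega⟩)))⟩
        have h3 := hc.2 w u hadj
        rw [hv u (Ne.symm hwu)] at h3
        have h4 := (hI u).2.2.2.2
        rw [hu] at h4
        have h5 : f u ∈ L e := by
          rcases h4 ht with h | h
          · dsimp only at h
            omega
          · exact h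
        obtain ⟨h6, h7⟩ := hL e he _ h5
        refine ⟨f u, h5, ?_⟩
        have hj : (f u - 3) / 2 < n := by omega
        dsimp only
        rw [dif_pos hj]
        have h8 := (X.surj 3 ((f u - 3) / 2) (by omega) (by simpa [cnt] using hj)).choose_spec
        refine hf.2 _ _ ?_
        rw [X.adj, h8, hu]
        refine ⟨?_, Or.inl (T4 ht (Or.inr (Or.inr ⟨rfl, ?_⟩)))⟩
        · intro h
          rw [h, hu] at h8
          have := (Prod.mk.inj h8).1
          omega
        · dsimp only
          have h9 : 3 + 2 * ((f u - 3) / 2) = f u ∨ 4 + 2 * ((f u - 3) / 2) = f u := by omega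
          rcases h9 with h | h
          · left; rw [h]; exact h5
          · right; rw [h]; exact h5
    · exact block0 fun x hx => Or.inr (Or.inl (by rw [hx]; exact ⟨rfl, h1, h2⟩))
  · have h1 : f' w ≠ 3 + 2 * i ∧ f' w ≠ 4 + 2 * i := by
      constructor
      · intro h
        exact hcon (by simp [h])
      · intro h
        exact hcon (by simp [h])
    exact block0 fun x hx => Or.inr (Or.inr (by rw [hx]; exact ⟨rfl, h1.1, h1.2⟩))
  · have h1 : f' w + 3 ≠ 4 ∧ f' w ∉ L i := by
      constructor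
      · intro h
        exact hcon (by simp [h])
      · intro h
        exact hcon (by simp [h])
    by_cases h0 : f' w = 0
    · exact block2 h0 0 (by omega) (T4 (Or.inl rfl) (Or.inr (Or.inl ⟨rfl, rfl⟩)))
    · refine block1 h0 (T4 (Or.inl rfl) (Or.inl ⟨rfl, ?_, ?_⟩))
      · dsimp only
        omega
      · dsimp only
        rw [Nat.sub_add_cancel (by omega)]
        exact h1.2
  · have h1 : f' w + 3 ≠ 5 ∧ f' w ∉ L i := by
      constructor
      · intro h
        exact hcon (by simp [h])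
      · intro h
        exact hcon (by simp [h])
    by_cases h0 : f' w = 0
    · exact block2 h0 1 (by omega) (T4 (Or.inr rfl) (Or.inr (Or.inl ⟨rfl, rfl⟩)))
    · refine block1 h0 (T4 (Or.inr rfl) (Or.inl ⟨rfl, ?_, ?_⟩))
      · dsimp only
        omega
      · dsimp only
        rw [Nat.sub_add_cancel (by omega)]
        exact h1.2

theorem Lab.inv_reach (hL : ∀ e < M, ∀ l ∈ L e, 3 ≤ l ∧ l < 3 + 2 * n) (hS : ¬ Sat n M L)
    {f : V → ℕ} (h : Reach G (3 + 2 * n) (fun v => f0 (X.lab v)) f) :
    ∀ v, Inv L (X.lab v) (f v) := by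
  obtain ⟨h0, h1⟩ := h
  have key : IsCol G (3 + 2 * n) f ∧ ∀ v, Inv L (X.lab v) (f v) := by
    induction h1 with
    | refl =>
      refine ⟨h0, fun v => ?_⟩
      unfold Inv f0 glue
      refine ⟨fun h => by simp [h], fun h => by simp [h], fun h => by simp [h],
        fun h => by simp [h], fun h => ?_⟩
      rcases h with h | h <;> simp [h]
    | tail _ h3 ih =>
      refine ⟨h3.1, ?_⟩
      rcases X.inv_step hL ih.1 ih.2 h3 with h | h
      · exact absurd h hS
      · exact h
  exact key.2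

theorem Lab.chi_sat [Finite V] (hL : ∀ e < M, ∀ l ∈ L e, 3 ≤ l ∧ l < 3 + 2 * n)
    (hS : Sat n M L) : chi G (3 + 2 * n) (fun v => f0 (X.lab v)) = 2 := by
  refine le_antisymm ?_ ?_
  · obtain ⟨f, h1, h2⟩ := X.reach_two hL hS
    refine iInf₂_le_of_le f h1 ?_
    have h3 : (Set.range f).ncard ≤ 2 := by
      have h4 : Set.range f ⊆ ((Finset.range 2 : Finset ℕ) : Set ℕ) := by
        rintro _ ⟨v, rfl⟩
        simpa using h2 v
      have h5 := Set.ncard_le_ncard h4 (Finset.finite_toSet _)
      rwa [Set.ncard_coe_finset, Finset.card_range] at h5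
    exact_mod_cast h3
  · refine le_iInf₂ fun f hf => ?_
    obtain ⟨u, hu⟩ := X.surj 0 0 (by omega) (by simp [cnt])
    obtain ⟨w, hw⟩ := X.surj 1 0 (by omega) (by simp [cnt])
    have hadj : G.Adj w u := by
      rw [X.adj, hu, hw]
      refine ⟨?_, Or.inl (T0 (Or.inl ⟨rfl, by omega⟩))⟩
      intro h
      rw [h, hu] at hw
      exact absurd (Prod.mk.inj hw).1 (by omega)
    have h1 := (Reach.isCol hf).2 w u hadj
    have h2 : 2 ≤ (Set.range f).ncard := by
      rw [← Set.ncard_pair h1]
      refine Set.ncard_le_ncard ?_ (Set.finite_range f)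
      rintro x (rfl | rfl)
      · exact ⟨w, rfl⟩
      · exact ⟨u, rfl⟩
    exact_mod_cast h2

theorem Lab.chi_unsat [Finite V] (hL : ∀ e < M, ∀ l ∈ L e, 3 ≤ l ∧ l < 3 + 2 * n)
    (hS : ¬ Sat n M L) : chi G (3 + 2 * n) (fun v => f0 (X.lab v)) = (3 + 2 * n : ℕ) := by
  have hR : ∀ f, Reach G (3 + 2 * n) (fun v => f0 (X.lab v)) f →
      (Set.range f).ncard = 3 + 2 * n := by
    intro f hf
    have h1 : Set.range f = ((Finset.range (3 + 2 * n) : Finset ℕ) : Set ℕ) := by
      ext c
      simp only [Set.mem_range, Finset.coe_range, Set.mem_Iio]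
      constructor
      · rintro ⟨v, rfl⟩
        exact (Reach.isCol hf).1 v
      · intro hc
        obtain ⟨u, hu⟩ := X.surj 0 c (by omega) (by simpa [cnt] using hc)
        refine ⟨u, ?_⟩
        have h2 := (X.inv_reach hL hS hf u).1
        rw [hu] at h2
        exact h2 rfl
    rw [h1, Set.ncard_coe_finset, Finset.card_range]
  refine le_antisymm ?_ ?_
  · refine iInf₂_le_of_le _ ⟨X.isCol_f0, Relation.ReflTransGen.refl⟩ ?_
    rw [hR _ ⟨X.isCol_f0, Relation.ReflTransGen.refl⟩]
  · refine le_iInf₂ fun f hf => ?_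
    rw [hR f hf]

end main

end Pool.Agent.R550.OC
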